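import Mathlib

/-!
Dihedral angles and the Dehn invariant of tetrahedra in Euclidean 3-space.
-/

namespace Pool.Agent.Helper93.Tet

open scoped TensorProduct
open Real

/-- Euclidean 3-space. -/
abbrev E := EuclideanSpace ℝ (Fin 3)

/-- The component of `w` orthogonal to `u`. -/
noncomputable def perp (u w : E) : E := w - ((inner ℝ u w : ℝ) / (inner ℝ u u : ℝ)) • u

/-- The dihedral angle of the tetrahedron `abcd` at its edge `ab`: the angle between the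
components of `c - a` and `d - a` orthogonal to `b - a`. -/
noncomputable def dihedral (a b c d : E) : ℝ :=
  InnerProductGeometry.angle (perp (b - a) (c - a)) (perp (b - a) (d - a))

/-- Angles modulo `π`. -/
abbrev AngleModPi : Type := ℝ ⧸ AddSubgroup.zmultiples Real.pi

/-- The Dehn invariant of the tetrahedron `abcd`, an element of `ℝ ⊗ (ℝ / πℤ)`. -/
noncomputable def dehn (a b c d : E) : ℝ ⊗[ℤ] AngleModPi :=
  (dist a b) ⊗ₜ[ℤ] ((dihedral a b c d : ℝ) : AngleModPi)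
  + (dist a c) ⊗ₜ[ℤ] ((dihedral a c b d : ℝ) : AngleModPi)
  + (dist a d) ⊗ₜ[ℤ] ((dihedral a d b c : ℝ) : AngleModPi)
  + (dist b c) ⊗ₜ[ℤ] ((dihedral b c a d : ℝ) : AngleModPi)
  + (dist b d) ⊗ₜ[ℤ] ((dihedral b d a c : ℝ) : AngleModPi)
  + (dist c d) ⊗ₜ[ℤ] ((dihedral c d a b : ℝ) : AngleModPi)

lemma inner_perp {u : E} (v w : E) (hu : (inner ℝ u u : ℝ) ≠ 0) :
    (inner ℝ (perp u v) (perp u w) : ℝ) = (inner ℝ v w : ℝ) - (inner ℝ u v : ℝ) * (inner ℝ u w : ℝ) / (inner ℝ u u : ℝ) := by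
  unfold perp
  simp only [inner_sub_left, inner_sub_right, inner_smul_left, inner_smul_right]
  have h1 : (inner ℝ v u : ℝ) = (inner ℝ u v : ℝ) := real_inner_comm _ _
  simp only [h1, RCLike.conj_to_real]
  field_simp
  ring

lemma inner_dist (a b c : E) :
    (inner ℝ (b - a) (c - a) : ℝ) = (dist a b ^ 2 + dist a c ^ 2 - dist b c ^ 2) / 2 := by
  have h := norm_sub_sq_real (b - a) (c - a)
  have h1 : (b - a) - (c - a) = b - c := by abel
  rw [h1] at h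
  rw [dist_comm a b, dist_comm a c, dist_eq_norm b a, dist_eq_norm c a, dist_eq_norm b c]
  linarith

lemma inner_self_dist (a b : E) : (inner ℝ (b - a) (b - a) : ℝ) = dist a b ^ 2 := by
  rw [real_inner_self_eq_norm_sq, dist_comm, dist_eq_norm]

/-- `P`-term of the dihedral angle. -/
noncomputable def fP (AB AC AD BC BD CD : ℝ) : ℝ :=
  (AC ^ 2 + AD ^ 2 - CD ^ 2) / 2
    - ((AB ^ 2 + AC ^ 2 - BC ^ 2) / 2) * ((AB ^ 2 + AD ^ 2 - BD ^ 2) / 2) / AB ^ 2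

/-- squared height of `C` over the line `AB`. -/
noncomputable def fQ (AB AC BC : ℝ) : ℝ :=
  AC ^ 2 - ((AB ^ 2 + AC ^ 2 - BC ^ 2) / 2) ^ 2 / AB ^ 2

lemma cos_dihedral (a b c d : E) (hab : dist a b ≠ 0) :
    Real.cos (dihedral a b c d) =
      fP (dist a b) (dist a c) (dist a d) (dist b c) (dist b d) (dist c d) /
        (Real.sqrt (fQ (dist a b) (dist a c) (dist b c)) *
          Real.sqrt (fQ (dist a b) (dist a d) (dist b d))) := by
  have hu : (inner ℝ (b - a) (b - a) : ℝ) ≠ 0 := by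
    rw [inner_self_dist]; positivity
  unfold dihedral
  rw [InnerProductGeometry.cos_angle, inner_perp _ _ hu]
  have n1 : ∀ x : E, ‖perp (b - a) (x - a)‖ = Real.sqrt (fQ (dist a b) (dist a x) (dist b x)) := by
    intro x
    rw [norm_eq_sqrt_real_inner, inner_perp _ _ hu, inner_self_dist, inner_self_dist,
      inner_dist a b x]
    unfold fQ
    congr 1
    ring
  rw [n1 c, n1 d, inner_self_dist, inner_dist a c d, inner_dist a b c, inner_dist a b d]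
  rfl

lemma spec {θ P Q1 Q2 p q κ : ℝ} (h0 : 0 ≤ θ) (hpi : θ ≤ π)
    (hc : Real.cos θ = P / (Real.sqrt Q1 * Real.sqrt Q2)) (h1 : 0 < Q1)
    (hκ : 0 < κ) (hq : 0 < q) (hP : P = κ * p) (hQ : Q1 * Q2 = κ ^ 2 * (p ^ 2 + q ^ 2)) :
    Real.cos θ = p / Real.sqrt (p ^ 2 + q ^ 2) ∧ Real.sin θ = q / Real.sqrt (p ^ 2 + q ^ 2) := by
  have hs : Real.sqrt Q1 * Real.sqrt Q2 = κ * Real.sqrt (p ^ 2 + q ^ 2) := by
    rw [← Real.sqrt_mul h1.le, hQ, Real.sqrt_mul (by positivity), Real.sqrt_sq hκ.le]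
  have hr : 0 < Real.sqrt (p ^ 2 + q ^ 2) := Real.sqrt_pos.mpr (by positivity)
  have hr2 : Real.sqrt (p ^ 2 + q ^ 2) ^ 2 = p ^ 2 + q ^ 2 := Real.sq_sqrt (by positivity)
  have hcos : Real.cos θ = p / Real.sqrt (p ^ 2 + q ^ 2) := by
    rw [hc, hs, hP]
    field_simp
  refine ⟨hcos, ?_⟩
  have hsin : 0 ≤ Real.sin θ := Real.sin_nonneg_of_nonneg_of_le_pi h0 hpi
  have h3 : Real.sin θ ^ 2 = (q / Real.sqrt (p ^ 2 + q ^ 2)) ^ 2 := by
    have := Real.sin_sq_add_cos_sq θ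
    rw [hcos] at this
    have h4 : Real.sin θ ^ 2 = 1 - (p / Real.sqrt (p ^ 2 + q ^ 2)) ^ 2 := by linarith
    rw [h4, div_pow, div_pow, hr2]
    have : (p ^ 2 + q ^ 2) ≠ 0 := by positivity
    field_simp
    ring
  exact (pow_left_inj₀ hsin (by positivity) (by norm_num)).mp h3

/-- Dihedral angle from the edge lengths. -/
lemma dihedral_spec {a b c d : E} {AB AC AD BC BD CD p q κ : ℝ}
    (hAB : dist a b = AB) (hAC : dist a c = AC) (hAD : dist a d = AD)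
    (hBC : dist b c = BC) (hBD : dist b d = BD) (hCD : dist c d = CD)
    (h0 : AB ≠ 0) (h1 : 0 < fQ AB AC BC)
    (hκ : 0 < κ) (hq : 0 < q) (hP : fP AB AC AD BC BD CD = κ * p)
    (hQ : fQ AB AC BC * fQ AB AD BD = κ ^ 2 * (p ^ 2 + q ^ 2)) :
    Real.cos (dihedral a b c d) = p / Real.sqrt (p ^ 2 + q ^ 2) ∧
      Real.sin (dihedral a b c d) = q / Real.sqrt (p ^ 2 + q ^ 2) := by
  have hc := cos_dihedral a b c d (by rw [hAB]; exact h0)
  rw [hAB, hAC, hAD, hBC, hBD, hCD] at hc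
  exact spec (InnerProductGeometry.angle_nonneg _ _) (InnerProductGeometry.angle_le_pi _ _)
    hc h1 hκ hq hP hQ

/-- `e^{iθ}` is a real multiple of `z`. -/
def Dir (θ : ℝ) (z : ℂ) : Prop := ∃ ρ : ℝ, Complex.exp (θ * Complex.I) = ρ * z

lemma Dir.of {θ p q : ℝ} (h : Real.cos θ = p / Real.sqrt (p ^ 2 + q ^ 2) ∧
      Real.sin θ = q / Real.sqrt (p ^ 2 + q ^ 2)) : Dir θ ⟨p, q⟩ := by
  refine ⟨(Real.sqrt (p ^ 2 + q ^ 2))⁻¹, ?_⟩
  rw [Complex.exp_mul_I, ← Complex.ofReal_cos, ← Complex.ofReal_sin, h.1, h.2,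
    Complex.mk_eq_add_mul_I]
  push_cast
  ring

lemma Dir.add {θ φ : ℝ} {z w : ℂ} (h1 : Dir θ z) (h2 : Dir φ w) : Dir (θ + φ) (z * w) := by
  obtain ⟨r, hr⟩ := h1
  obtain ⟨s, hs⟩ := h2
  refine ⟨r * s, ?_⟩
  push_cast
  rw [add_mul, Complex.exp_add, hr, hs]
  ring

lemma Dir.neg {θ : ℝ} {z : ℂ} (h1 : Dir θ z) : Dir (-θ) ((starRingEnd ℂ) z) := by
  obtain ⟨r, hr⟩ := h1
  refine ⟨r, ?_⟩
  have h := congrArg (starRingEnd ℂ) hr
  rw [← Complex.exp_conj] at h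
  simp only [map_mul, Complex.conj_ofReal, Complex.conj_I] at h
  rw [← h]
  congr 1
  push_cast
  ring

lemma Dir.nsmul {θ : ℝ} {z : ℂ} (h1 : Dir θ z) (n : ℕ) : Dir (n * θ) (z ^ n) := by
  obtain ⟨r, hr⟩ := h1
  refine ⟨r ^ n, ?_⟩
  push_cast
  rw [mul_assoc, Complex.exp_nat_mul, hr, mul_pow]

lemma Dir.zero_of_im {θ : ℝ} {z : ℂ} (h : Dir θ z) (hz : z.im = 0) :
    ((θ : ℝ) : AngleModPi) = 0 := by
  obtain ⟨r, hr⟩ := h
  have h1 : (Complex.exp (θ * Complex.I)).im = 0 := by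
    rw [hr, Complex.im_ofReal_mul, hz, mul_zero]
  rw [Complex.exp_ofReal_mul_I_im] at h1
  obtain ⟨n, hn⟩ := Real.sin_eq_zero_iff.mp h1
  rw [QuotientAddGroup.eq_zero_iff]
  exact ⟨n, by simpa using hn⟩

/-- Tensor bookkeeping: if all edge lengths are `k m + l` with integers `k, l`. -/
lemma tmul_split (m : ℝ) (k l : ℤ) (t : AngleModPi) :
    ((k : ℝ) * m + (l : ℝ)) ⊗ₜ[ℤ] t = m ⊗ₜ[ℤ] (k • t) + (1 : ℝ) ⊗ₜ[ℤ] (l • t) := by
  rw [TensorProduct.add_tmul]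
  congr 1
  · rw [show (k : ℝ) * m = k • m by simp, TensorProduct.smul_tmul]
  · rw [show (l : ℝ) = l • (1 : ℝ) by simp, TensorProduct.smul_tmul]

end Pool.Agent.Helper93.Tet
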