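import Pool.Agent.Helper93.Tet.Fam2

namespace Pool.Agent.Helper93.Tet

open Real

/-- The point with coordinates `x, y, z`. -/
noncomputable def pt (x y z : ℝ) : E := !₂[x, y, z]

lemma dist_pt {x y z x' y' z' r : ℝ} (hr : 0 ≤ r)
    (h : (x - x') ^ 2 + (y - y') ^ 2 + (z - z') ^ 2 = r ^ 2) :
    dist (pt x y z) (pt x' y' z') = r := by
  rw [EuclideanSpace.dist_eq, Fin.sum_univ_three]
  simp only [pt, Real.dist_eq, sq_abs]
  simp only [Matrix.cons_val_zero, Matrix.cons_val_one, Matrix.cons_val]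
  rw [h, Real.sqrt_sq hr]

lemma affInd {b0 c0 c1 d0 d1 d2 : ℝ} (hb : b0 ≠ 0) (hc : c1 ≠ 0) (hd : d2 ≠ 0) :
    AffineIndependent ℝ ![pt 0 0 0, pt b0 0 0, pt c0 c1 0, pt d0 d1 d2] := by
  rw [affineIndependent_iff_of_fintype]
  intro w hw h
  rw [Finset.weightedVSub_eq_weightedVSubOfPoint_of_sum_eq_zero _ w _ hw (pt 0 0 0)] at h
  rw [Finset.weightedVSubOfPoint_apply, Fin.sum_univ_four] at h
  have h0 := congrArg (fun e : E => e 0) h
  have h1 := congrArg (fun e : E => e 1) h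
  have h2 := congrArg (fun e : E => e 2) h
  simp [pt] at h0 h1 h2
  rw [Fin.sum_univ_four] at hw
  have w3 : w 3 = 0 := by
    rcases h2 with h2 | h2
    · exact h2
    · exact absurd h2 hd
  rw [w3] at h1 h0 hw
  have w2 : w 2 = 0 := by
    have : w 2 * c1 = 0 := by linarith
    exact (mul_eq_zero.mp this).resolve_right hc
  rw [w2] at h0 hw
  have w1 : w 1 = 0 := by
    have : w 1 * b0 = 0 := by linarith
    exact (mul_eq_zero.mp this).resolve_right hb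
  rw [w1] at hw
  have w0 : w 0 = 0 := by linarith
  intro i
  fin_cases i <;> assumption


theorem F1_exists {m : ℝ} (hm : 4 < m) : ∃ a b c d : E, AffineIndependent ℝ ![a, b, c, d] ∧
    HasEdges a b c d (m + 1) (m + 1) m 6 (m - 1) (m - 1) := by
  have p1 : 0 < m - 4 := by linarith
  have p2 : 0 < m - 2 := by linarith
  have p3 : 0 < m + 4 := by linarith
  have p4 : 0 < m + 1 := by linarith
  have p5 : 0 < m := by linarith
  obtain ⟨h, hh0, hh⟩ : ∃ h : ℝ, 0 < h ∧ h ^ 2 = (m - 2) * (m + 4) :=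
    ⟨Real.sqrt ((m - 2) * (m + 4)), Real.sqrt_pos.mpr (by positivity),
      Real.sq_sqrt (by positivity)⟩
  obtain ⟨Z, hZ0, hZ⟩ : ∃ Z : ℝ, 0 < Z ∧ Z ^ 2 = 3 * m ^ 2 * (m - 4) / (4 * (m - 2)) :=
    ⟨Real.sqrt (3 * m ^ 2 * (m - 4) / (4 * (m - 2))), Real.sqrt_pos.mpr (by positivity),
      Real.sq_sqrt (by positivity)⟩
  have hy1 : (6 * h / (m + 1)) ^ 2 = 36 * ((m - 2) * (m + 4)) / (m + 1) ^ 2 := by
    rw [div_pow, mul_pow, hh]; norm_num
  have hy2 : (3 * m * (m + 4) / (2 * (m + 1) * h)) ^ 2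
      = 9 * m ^ 2 * (m + 4) / (4 * (m + 1) ^ 2 * (m - 2)) := by
    rw [div_pow, mul_pow _ h, hh]; field_simp; ring
  have hy3 : (6 * h / (m + 1)) * (3 * m * (m + 4) / (2 * (m + 1) * h))
      = 9 * m * (m + 4) / (m + 1) ^ 2 := by
    field_simp; ring
  refine ⟨pt 0 0 0, pt (m + 1) 0 0, pt ((m ^ 2 + 2 * m - 17) / (m + 1)) (6 * h / (m + 1)) 0,
    pt (m * (m + 4) / (2 * (m + 1))) (3 * m * (m + 4) / (2 * (m + 1) * h)) Z,
    affInd p4.ne' (by positivity) hZ0.ne', ?_, ?_, ?_, ?_, ?_, ?_⟩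
  · exact dist_pt p4.le (by ring)
  · refine dist_pt p4.le ?_
    have : (0 - (m ^ 2 + 2 * m - 17) / (m + 1)) ^ 2 + (0 - 6 * h / (m + 1)) ^ 2 + (0 - 0) ^ 2
      = ((m ^ 2 + 2 * m - 17) / (m + 1)) ^ 2 + (6 * h / (m + 1)) ^ 2 := by ring
    rw [this, hy1]
    field_simp
    ring
  · refine dist_pt p5.le ?_
    have : (0 - m * (m + 4) / (2 * (m + 1))) ^ 2
        + (0 - 3 * m * (m + 4) / (2 * (m + 1) * h)) ^ 2 + (0 - Z) ^ 2
      = (m * (m + 4) / (2 * (m + 1))) ^ 2 + (3 * m * (m + 4) / (2 * (m + 1) * h)) ^ 2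
        + Z ^ 2 := by ring
    rw [this, hy2, hZ]
    field_simp
    ring
  · refine dist_pt (by norm_num) ?_
    have : (m + 1 - (m ^ 2 + 2 * m - 17) / (m + 1)) ^ 2 + (0 - 6 * h / (m + 1)) ^ 2 + (0 - 0) ^ 2
      = (m + 1 - (m ^ 2 + 2 * m - 17) / (m + 1)) ^ 2 + (6 * h / (m + 1)) ^ 2 := by ring
    rw [this, hy1]
    field_simp
    ring
  · refine dist_pt (by linarith) ?_
    have : (m + 1 - m * (m + 4) / (2 * (m + 1))) ^ 2
        + (0 - 3 * m * (m + 4) / (2 * (m + 1) * h)) ^ 2 + (0 - Z) ^ 2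
      = (m + 1 - m * (m + 4) / (2 * (m + 1))) ^ 2 + (3 * m * (m + 4) / (2 * (m + 1) * h)) ^ 2
        + Z ^ 2 := by ring
    rw [this, hy2, hZ]
    field_simp
    ring
  · refine dist_pt (by linarith) ?_
    have : ((m ^ 2 + 2 * m - 17) / (m + 1) - m * (m + 4) / (2 * (m + 1))) ^ 2
        + (6 * h / (m + 1) - 3 * m * (m + 4) / (2 * (m + 1) * h)) ^ 2 + (0 - Z) ^ 2
      = ((m ^ 2 + 2 * m - 17) / (m + 1) - m * (m + 4) / (2 * (m + 1))) ^ 2
        + ((6 * h / (m + 1)) ^ 2 - 2 * ((6 * h / (m + 1)) * (3 * m * (m + 4) / (2 * (m + 1) * h)))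
          + (3 * m * (m + 4) / (2 * (m + 1) * h)) ^ 2)
        + Z ^ 2 := by ring
    rw [this, hy1, hy2, hy3, hZ]
    field_simp
    ring

theorem F2_exists {m : ℝ} (hm : 4 < m) : ∃ a b c d : E, AffineIndependent ℝ ![a, b, c, d] ∧
    HasEdges a b c d (2 * m + 2) (m + 4) (m + 6) (3 * m - 6) (m + 8) (2 * m - 2) := by
  have p1 : 0 < m - 4 := by linarith
  have p2 : 0 < m - 2 := by linarith
  have p3 : 0 < m + 4 := by linarith
  have p4 : 0 < m + 1 := by linarith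
  have p5 : 0 < m := by linarith
  obtain ⟨h, hh0, hh⟩ : ∃ h : ℝ, 0 < h ∧ h ^ 2 = m :=
    ⟨Real.sqrt m, Real.sqrt_pos.mpr (by positivity), Real.sq_sqrt (by positivity)⟩
  obtain ⟨Z, hZ0, hZ⟩ : ∃ Z : ℝ, 0 < Z ∧ Z ^ 2 = 12 * m * (m - 4) * (m + 4) / (m - 2) ^ 2 :=
    ⟨Real.sqrt (12 * m * (m - 4) * (m + 4) / (m - 2) ^ 2), Real.sqrt_pos.mpr (by positivity),
      Real.sq_sqrt (by positivity)⟩
  have hy1 : (6 * h * (m - 2) / (m + 1)) ^ 2 = 36 * m * (m - 2) ^ 2 / (m + 1) ^ 2 := by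
    rw [div_pow, mul_pow, mul_pow, hh]; norm_num
  have hy2 : (6 * h * (m + 4) / ((m + 1) * (m - 2))) ^ 2
      = 36 * m * (m + 4) ^ 2 / ((m + 1) * (m - 2)) ^ 2 := by
    rw [div_pow, mul_pow, mul_pow, hh]; norm_num
  have hy3 : (6 * h * (m - 2) / (m + 1)) * (6 * h * (m + 4) / ((m + 1) * (m - 2)))
      = 36 * m * (m + 4) / (m + 1) ^ 2 := by
    have : (6 * h * (m - 2) / (m + 1)) * (6 * h * (m + 4) / ((m + 1) * (m - 2)))
      = 36 * h ^ 2 * (m + 4) / (m + 1) ^ 2 := by field_simp; ring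
    rw [this, hh]
  refine ⟨pt 0 0 0, pt (2 * m + 2) 0 0,
    pt ((-m ^ 2 + 13 * m - 4) / (m + 1)) (6 * h * (m - 2) / (m + 1)) 0,
    pt ((m + 3) * (m - 2) / (m + 1)) (6 * h * (m + 4) / ((m + 1) * (m - 2))) Z,
    affInd (by positivity) (by positivity) hZ0.ne', ?_, ?_, ?_, ?_, ?_, ?_⟩
  · exact dist_pt (by positivity) (by ring)
  · refine dist_pt p3.le ?_
    have : (0 - (-m ^ 2 + 13 * m - 4) / (m + 1)) ^ 2 + (0 - 6 * h * (m - 2) / (m + 1)) ^ 2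
        + (0 - 0) ^ 2
      = ((-m ^ 2 + 13 * m - 4) / (m + 1)) ^ 2 + (6 * h * (m - 2) / (m + 1)) ^ 2 := by ring
    rw [this, hy1]
    field_simp
    ring
  · refine dist_pt (by linarith) ?_
    have : (0 - (m + 3) * (m - 2) / (m + 1)) ^ 2
        + (0 - 6 * h * (m + 4) / ((m + 1) * (m - 2))) ^ 2 + (0 - Z) ^ 2
      = ((m + 3) * (m - 2) / (m + 1)) ^ 2 + (6 * h * (m + 4) / ((m + 1) * (m - 2))) ^ 2
        + Z ^ 2 := by ring
    rw [this, hy2, hZ]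
    field_simp
    ring
  · refine dist_pt (by linarith) ?_
    have : (2 * m + 2 - (-m ^ 2 + 13 * m - 4) / (m + 1)) ^ 2
        + (0 - 6 * h * (m - 2) / (m + 1)) ^ 2 + (0 - 0) ^ 2
      = (2 * m + 2 - (-m ^ 2 + 13 * m - 4) / (m + 1)) ^ 2
        + (6 * h * (m - 2) / (m + 1)) ^ 2 := by ring
    rw [this, hy1]
    field_simp
    ring
  · refine dist_pt (by linarith) ?_
    have : (2 * m + 2 - (m + 3) * (m - 2) / (m + 1)) ^ 2
        + (0 - 6 * h * (m + 4) / ((m + 1) * (m - 2))) ^ 2 + (0 - Z) ^ 2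
      = (2 * m + 2 - (m + 3) * (m - 2) / (m + 1)) ^ 2
        + (6 * h * (m + 4) / ((m + 1) * (m - 2))) ^ 2
        + Z ^ 2 := by ring
    rw [this, hy2, hZ]
    field_simp
    ring
  · refine dist_pt (by linarith) ?_
    have : ((-m ^ 2 + 13 * m - 4) / (m + 1) - (m + 3) * (m - 2) / (m + 1)) ^ 2
        + (6 * h * (m - 2) / (m + 1) - 6 * h * (m + 4) / ((m + 1) * (m - 2))) ^ 2 + (0 - Z) ^ 2
      = ((-m ^ 2 + 13 * m - 4) / (m + 1) - (m + 3) * (m - 2) / (m + 1)) ^ 2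
        + ((6 * h * (m - 2) / (m + 1)) ^ 2
          - 2 * ((6 * h * (m - 2) / (m + 1)) * (6 * h * (m + 4) / ((m + 1) * (m - 2))))
          + (6 * h * (m + 4) / ((m + 1) * (m - 2))) ^ 2)
        + Z ^ 2 := by ring
    rw [this, hy1, hy2, hy3, hZ]
    field_simp
    ring

end Pool.Agent.Helper93.Tet
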