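import Pool.Agent.Helper93.Tet.Basic

namespace Pool.Agent.Helper93.Tet

open scoped TensorProduct
open Real

/-- The six edge lengths `ab, ac, ad, bc, bd, cd` of the tetrahedron `abcd`. -/
def HasEdges (a b c d : E) (AB AC AD BC BD CD : ℝ) : Prop :=
  dist a b = AB ∧ dist a c = AC ∧ dist a d = AD ∧ dist b c = BC ∧ dist b d = BD ∧ dist c d = CD

section setup

variable {m s v : ℝ}

/-- direction of the angle at `ab` -/
noncomputable def zX (m s v : ℝ) : ℂ := ⟨s * (m + 4), (m + 1) * v⟩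
noncomputable def zU (m s v : ℝ) : ℂ := ⟨s * (m - 4), (m - 1) * v⟩
noncomputable def zT (m s v : ℝ) : ℂ := ⟨m ^ 2 - 28, 4 * s * v⟩
noncomputable def zY (m s v : ℝ) : ℂ := ⟨v, s * m⟩
noncomputable def zH (s v : ℝ) : ℂ := ⟨v, 2 * s⟩
noncomputable def zW (s v : ℝ) : ℂ := ⟨-v, 2 * s⟩

lemma XU (hs : s ^ 2 = 3) (hv : v ^ 2 = m ^ 2 - 16) :
    zX m s v * zU m s v = (((m ^ 2 - 4) * v : ℝ) : ℂ) * zW s v := by
  unfold zX zU zW
  apply Complex.ext
  · simp only [Complex.mul_re, Complex.ofReal_re, Complex.ofReal_im]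
    linear_combination (m ^ 2 - 16) * hs - 3 * hv
  · simp only [Complex.mul_im, Complex.ofReal_re, Complex.ofReal_im]
    ring

lemma T_sq (hs : s ^ 2 = 3) (hv : v ^ 2 = m ^ 2 - 16) : zT m s v = zH s v ^ 2 := by
  unfold zT zH
  rw [sq (⟨v, 2 * s⟩ : ℂ)]
  apply Complex.ext
  · simp only [Complex.mul_re]
    linear_combination 4 * hs - hv
  · simp only [Complex.mul_im]
    ring

lemma WH (hs : s ^ 2 = 3) (hv : v ^ 2 = m ^ 2 - 16) :
    zW s v * zH s v = ((-(m ^ 2 - 4) : ℝ) : ℂ) := by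
  unfold zW zH
  apply Complex.ext
  · simp only [Complex.mul_re, Complex.ofReal_re]
    linear_combination - 4 * hs - hv
  · simp only [Complex.mul_im, Complex.ofReal_im]
    ring

lemma Y_cube (hs : s ^ 2 = 3) (hv : v ^ 2 = m ^ 2 - 16) :
    (((m - 4) * (m + 2) : ℝ) : ℂ) * zY m s v ^ 3
      = ((8 : ℝ) : ℂ) * (zH s v * zU m s v ^ 2) := by
  unfold zY zH zU
  rw [pow_succ, sq, sq]
  apply Complex.ext
  · simp only [Complex.mul_re, Complex.mul_im, Complex.ofReal_re, Complex.ofReal_im]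
    linear_combination (v * (9 * m * (m - 2))) * hv
      + (v * (-3 * m * (m - 4) * (m + 4) * (m - 2))) * hs
  · simp only [Complex.mul_re, Complex.mul_im, Complex.ofReal_re, Complex.ofReal_im]
    linear_combination (s * (3 * (m - 2) * (m ^ 2 + 8))) * hv
      + (s * (-(m - 4) * (m + 4) * (m - 2) * (m ^ 2 + 8))) * hs

lemma im_zero_of {c : ℝ} (hc : c ≠ 0) {z : ℂ} {r : ℝ} (h : (c : ℂ) * z = (r : ℂ)) : z.im = 0 := by
  have := congrArg Complex.im h
  rw [Complex.im_ofReal_mul, Complex.ofReal_im] at this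
  exact (mul_eq_zero.mp this).resolve_left hc

lemma alpha_im (hs : s ^ 2 = 3) (hv : v ^ 2 = m ^ 2 - 16) :
    (zX m s v * zX m s v * zT m s v * zU m s v * zU m s v).im = 0 := by
  have h : zX m s v * zX m s v * zT m s v * zU m s v * zU m s v
      = ((((m ^ 2 - 4) * v) ^ 2 * (m ^ 2 - 4) ^ 2 : ℝ) : ℂ) := by
    have h1 : zX m s v * zX m s v * zT m s v * zU m s v * zU m s v
      = (zX m s v * zU m s v) ^ 2 * zT m s v := by ring
    rw [h1, XU hs hv, T_sq hs hv, mul_pow]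
    have h2 : ∀ c w t : ℂ, c ^ 2 * w ^ 2 * t ^ 2 = c ^ 2 * (w * t) ^ 2 := by intros; ring
    rw [h2, WH hs hv]
    push_cast
    ring
  rw [h, Complex.ofReal_im]

lemma beta_im (hs : s ^ 2 = 3) (hv : v ^ 2 = m ^ 2 - 16) (hm : 4 < m) :
    (zX m s v * zX m s v * zY m s v ^ 6 * (starRingEnd ℂ) (zU m s v)
      * (starRingEnd ℂ) (zU m s v)).im = 0 := by
  have hc : (((m - 4) * (m + 2)) ^ 2 : ℝ) ≠ 0 := by
    have : 0 < (m - 4) * (m + 2) := mul_pos (by linarith) (by linarith)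
    positivity
  have hα := alpha_im (m := m) hs hv
  set X := zX m s v
  set U := zU m s v
  set T := zT m s v with hT
  have hY : ((((m - 4) * (m + 2)) ^ 2 : ℝ) : ℂ) * zY m s v ^ 6 = ((64 : ℝ) : ℂ) * (T * U ^ 4) := by
    have h1 := Y_cube (m := m) hs hv
    have h2 : ((((m - 4) * (m + 2)) ^ 2 : ℝ) : ℂ) * zY m s v ^ 6
      = ((((m - 4) * (m + 2) : ℝ) : ℂ) * zY m s v ^ 3) ^ 2 := by push_cast; ring
    rw [h2, h1, hT, T_sq hs hv]
    push_cast
    ring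
  obtain ⟨r, hr⟩ : ∃ r : ℝ, X * X * T * U * U = (r : ℂ) :=
    ⟨_, (Complex.ext (by rw [Complex.ofReal_re]) (by rw [hα, Complex.ofReal_im]))⟩
  have hU : U * (starRingEnd ℂ) U = ((Complex.normSq U : ℝ) : ℂ) := Complex.mul_conj U
  apply im_zero_of hc (r := 64 * r * (Complex.normSq U) ^ 2)
  calc ((((m - 4) * (m + 2)) ^ 2 : ℝ) : ℂ) * (X * X * zY m s v ^ 6 * (starRingEnd ℂ) U
        * (starRingEnd ℂ) U)
      = (((((m - 4) * (m + 2)) ^ 2 : ℝ) : ℂ) * zY m s v ^ 6) * (X * X) * ((starRingEnd ℂ) U) ^ 2 := by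
        ring
    _ = ((64 : ℝ) : ℂ) * (X * X * T * U * U) * (U * (starRingEnd ℂ) U) ^ 2 := by
        rw [hY]; ring
    _ = _ := by rw [hr, hU]; push_cast; ring

end setup


section F1

variable {m s v : ℝ} {a b c d : E}

/-- `θ` is the argument of `p + q i`. -/
def IsArg (θ p q : ℝ) : Prop :=
  Real.cos θ = p / Real.sqrt (p ^ 2 + q ^ 2) ∧ Real.sin θ = q / Real.sqrt (p ^ 2 + q ^ 2)

lemma core_x (hm : 4 < m) (hs0 : 0 < s) (hs : s ^ 2 = 3) (hv0 : 0 < v) (hv : v ^ 2 = m ^ 2 - 16)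
    (h1 : dist a b = m + 1) (h2 : dist a c = m + 1) (h3 : dist a d = m)
    (h4 : dist b c = 6) (h5 : dist b d = m - 1) (h6 : dist c d = m - 1) :
    IsArg (dihedral a b c d) (s * (m + 4)) ((m + 1) * v) := by
  have e1 : m + 1 ≠ 0 := by linarith
  refine dihedral_spec (κ := 3 * s * m / (m + 1) ^ 2) h1 h2 h3 h4 h5 h6 e1 ?_ ?_ ?_ ?_ ?_
  · have : fQ (m + 1) (m + 1) 6 = 36 * (m - 2) * (m + 4) / (m + 1) ^ 2 := by
      unfold fQ; field_simp; ring
    rw [this]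
    have : 0 < m - 2 := by linarith
    have : 0 < m + 4 := by linarith
    positivity
  · have : 0 < m := by linarith
    positivity
  · have : 0 < m + 1 := by linarith
    positivity
  · unfold fP
    linear_combination (norm := (field_simp; ring)) (-(3 * m * (m + 4) / (m + 1) ^ 2)) * hs
  · unfold fQ
    linear_combination (norm := (field_simp; ring))
      (-(9 * m ^ 2 / (m + 1) ^ 4) * (s ^ 2 * (m + 4) ^ 2 + (m + 1) ^ 2 * v ^ 2 + 3 * (m + 4) ^ 2)) * hs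
      + (-(9 * m ^ 2 / (m + 1) ^ 4) * (3 * (m + 1) ^ 2)) * hv

lemma core_t (hm : 4 < m) (hs0 : 0 < s) (hs : s ^ 2 = 3) (hv0 : 0 < v) (hv : v ^ 2 = m ^ 2 - 16)
    (h1 : dist a b = m) (h2 : dist a c = m + 1) (h3 : dist a d = m + 1)
    (h4 : dist b c = m - 1) (h5 : dist b d = m - 1) (h6 : dist c d = 6) :
    IsArg (dihedral a b c d) (m ^ 2 - 28) (4 * s * v) := by
  have e1 : m ≠ 0 := by linarith
  refine dihedral_spec (κ := 3 / 4) h1 h2 h3 h4 h5 h6 e1 ?_ (by norm_num) (by positivity) ?_ ?_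
  · have : fQ m (m + 1) (m - 1) = 3 * (m - 2) * (m + 2) / 4 := by
      unfold fQ; field_simp; ring
    rw [this]
    have : 0 < m - 2 := by linarith
    have : 0 < m + 2 := by linarith
    positivity
  · unfold fP
    field_simp
    ring
  · unfold fQ
    linear_combination (norm := (field_simp; ring))
      (-9 * v ^ 2) * hs + (-27) * hv

lemma core_y (hm : 4 < m) (hs0 : 0 < s) (hs : s ^ 2 = 3) (hv0 : 0 < v) (hv : v ^ 2 = m ^ 2 - 16)
    (h1 : dist a b = 6) (h2 : dist a c = m + 1) (h3 : dist a d = m - 1)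
    (h4 : dist b c = m + 1) (h5 : dist b d = m - 1) (h6 : dist c d = m) :
    IsArg (dihedral a b c d) v (s * m) := by
  have hm0 : 0 < m := by linarith
  refine dihedral_spec (κ := v / 2) h1 h2 h3 h4 h5 h6 (by norm_num) ?_ (by positivity)
    (by positivity) ?_ ?_
  · have : fQ 6 (m + 1) (m + 1) = (m - 2) * (m + 4) := by
      unfold fQ; ring
    rw [this]
    have : 0 < m - 2 := by linarith
    have : 0 < m + 4 := by linarith
    positivity
  · unfold fP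
    linear_combination (norm := (field_simp; ring)) (-1 / 2) * hv
  · unfold fQ
    linear_combination (norm := (field_simp; ring))
      (-(1 / 4) * (m ^ 2 * v ^ 2)) * hs
      + (-(1 / 4) * (v ^ 2 + (m ^ 2 - 16) + 3 * m ^ 2)) * hv

lemma core_u (hm : 4 < m) (hs0 : 0 < s) (hs : s ^ 2 = 3) (hv0 : 0 < v) (hv : v ^ 2 = m ^ 2 - 16)
    (h1 : dist a b = m - 1) (h2 : dist a c = m + 1) (h3 : dist a d = 6)
    (h4 : dist b c = m) (h5 : dist b d = m - 1) (h6 : dist c d = m + 1) :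
    IsArg (dihedral a b c d) (s * (m - 4)) ((m - 1) * v) := by
  have e1 : m - 1 ≠ 0 := by linarith
  refine dihedral_spec (κ := 3 * s * m / (m - 1) ^ 2) h1 h2 h3 h4 h5 h6 e1 ?_ ?_ ?_ ?_ ?_
  · have : fQ (m - 1) (m + 1) m = 3 * m ^ 2 * (m - 2) * (m + 2) / (4 * (m - 1) ^ 2) := by
      unfold fQ; field_simp; ring
    rw [this]
    have : 0 < m - 2 := by linarith
    have : 0 < m + 2 := by linarith
    positivity
  · have : 0 < m := by linarith
    positivity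
  · have : 0 < m - 1 := by linarith
    positivity
  · unfold fP
    linear_combination (norm := (field_simp; ring)) (-(3 * m * (m - 4) / (m - 1) ^ 2)) * hs
  · unfold fQ
    linear_combination (norm := (field_simp; ring))
      (-(9 * m ^ 2 / (m - 1) ^ 4) * (s ^ 2 * (m - 4) ^ 2 + (m - 1) ^ 2 * v ^ 2 + 3 * (m - 4) ^ 2)) * hs
      + (-(9 * m ^ 2 / (m - 1) ^ 4) * (3 * (m - 1) ^ 2)) * hv

/-- The angles of the first family. -/
theorem F1_angles (hm : 4 < m) (hs0 : 0 < s) (hs : s ^ 2 = 3) (hv0 : 0 < v)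
    (hv : v ^ 2 = m ^ 2 - 16)
    (h : HasEdges a b c d (m + 1) (m + 1) m 6 (m - 1) (m - 1)) :
    IsArg (dihedral a b c d) (s * (m + 4)) ((m + 1) * v)
    ∧ IsArg (dihedral a c b d) (s * (m + 4)) ((m + 1) * v)
    ∧ IsArg (dihedral a d b c) (m ^ 2 - 28) (4 * s * v)
    ∧ IsArg (dihedral b c a d) v (s * m)
    ∧ IsArg (dihedral b d a c) (s * (m - 4)) ((m - 1) * v)
    ∧ IsArg (dihedral c d a b) (s * (m - 4)) ((m - 1) * v) := by
  obtain ⟨h1, h2, h3, h4, h5, h6⟩ := h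
  have g1 := h1; have g2 := h2; have g3 := h3; have g4 := h4; have g5 := h5; have g6 := h6
  rw [dist_comm] at g1 g2 g3 g4 g5 g6
  exact ⟨core_x hm hs0 hs hv0 hv h1 h2 h3 h4 h5 h6,
    core_x hm hs0 hs hv0 hv h2 h1 h3 g4 h6 h5,
    core_t hm hs0 hs hv0 hv h3 h1 h2 g5 g6 h4,
    core_y hm hs0 hs hv0 hv h4 g1 h5 g2 h6 h3,
    core_u hm hs0 hs hv0 hv h5 g1 h4 g3 g6 h2,
    core_u hm hs0 hs hv0 hv h6 g2 g4 g3 g5 h1⟩

/-- The Dehn invariant of the first family vanishes. -/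
theorem F1_dehn (hm : 4 < m)
    (h : HasEdges a b c d (m + 1) (m + 1) m 6 (m - 1) (m - 1)) : dehn a b c d = 0 := by
  have hs0 : (0 : ℝ) < Real.sqrt 3 := Real.sqrt_pos.mpr (by norm_num)
  have hs : (Real.sqrt 3) ^ 2 = 3 := Real.sq_sqrt (by norm_num)
  have hpos : 0 < m ^ 2 - 16 := by nlinarith
  have hv0 : 0 < Real.sqrt (m ^ 2 - 16) := Real.sqrt_pos.mpr hpos
  have hv : (Real.sqrt (m ^ 2 - 16)) ^ 2 = m ^ 2 - 16 := Real.sq_sqrt hpos.le
  obtain ⟨x1, x2, t, y, u1, u2⟩ := F1_angles hm hs0 hs hv0 hv h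
  set s := Real.sqrt 3
  set v := Real.sqrt (m ^ 2 - 16)
  have dx1 := Dir.of x1
  have dx2 := Dir.of x2
  have dt := Dir.of t
  have dy := Dir.of y
  have du1 := Dir.of u1
  have du2 := Dir.of u2
  have ha := (((dx1.add dx2).add dt).add du1).add du2
  have hb := (((dx1.add dx2).add (dy.nsmul 6)).add du1.neg).add du2.neg
  have ha0 := ha.zero_of_im (alpha_im hs hv)
  have hb0 := hb.zero_of_im (beta_im hs hv hm)
  obtain ⟨h1, h2, h3, h4, h5, h6⟩ := h
  unfold dehn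
  rw [h1, h2, h3, h4, h5, h6]
  generalize dihedral a b c d = θ1 at *
  generalize dihedral a c b d = θ2 at *
  generalize dihedral a d b c = θ3 at *
  generalize dihedral b c a d = θ4 at *
  generalize dihedral b d a c = θ5 at *
  generalize dihedral c d a b = θ6 at *
  have t1 := tmul_split m 1 1 (θ1 : AngleModPi)
  have t2 := tmul_split m 1 1 (θ2 : AngleModPi)
  have t3 := tmul_split m 1 0 (θ3 : AngleModPi)
  have t4 := tmul_split m 0 6 (θ4 : AngleModPi)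
  have t5 := tmul_split m 1 (-1) (θ5 : AngleModPi)
  have t6 := tmul_split m 1 (-1) (θ6 : AngleModPi)
  have r1 : m + 1 = ((1 : ℤ) : ℝ) * m + ((1 : ℤ) : ℝ) := by push_cast; ring
  have r3 : m = ((1 : ℤ) : ℝ) * m + ((0 : ℤ) : ℝ) := by push_cast; ring
  have r4 : (6 : ℝ) = ((0 : ℤ) : ℝ) * m + ((6 : ℤ) : ℝ) := by push_cast; ring
  have r5 : m - 1 = ((1 : ℤ) : ℝ) * m + ((-1 : ℤ) : ℝ) := by push_cast; ring
  have e : ∀ A B : AngleModPi, A = 0 → B = 0 → m ⊗ₜ[ℤ] A + (1 : ℝ) ⊗ₜ[ℤ] B = 0 := by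
    intro A B hA hB
    rw [hA, hB, TensorProduct.tmul_zero, TensorProduct.tmul_zero, add_zero]
  have key := e _ _ ha0 hb0
  rw [← key]
  have s3 : m ⊗ₜ[ℤ] (θ3 : AngleModPi)
      = (((1 : ℤ) : ℝ) * m + ((0 : ℤ) : ℝ)) ⊗ₜ[ℤ] (θ3 : AngleModPi) := by rw [← r3]
  have s4 : (6 : ℝ) ⊗ₜ[ℤ] (θ4 : AngleModPi)
      = (((0 : ℤ) : ℝ) * m + ((6 : ℤ) : ℝ)) ⊗ₜ[ℤ] (θ4 : AngleModPi) := by rw [← r4]
  rw [s3, s4, r1, r5, t1, t2, t3, t4, t5, t6]
  push_cast
  simp only [TensorProduct.tmul_add, TensorProduct.tmul_neg, QuotientAddGroup.mk_add,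
    QuotientAddGroup.mk_neg, one_smul, zero_smul, TensorProduct.tmul_zero, neg_smul]
  have h6' : ((6 * θ4 : ℝ) : AngleModPi) = (6 : ℤ) • (θ4 : AngleModPi) := by
    rw [← QuotientAddGroup.mk_zsmul]; congr 1; simp
  rw [h6']
  abel

end F1

end Pool.Agent.Helper93.Tet
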