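import Pool.Agent.Helper93.Tet.Fam

namespace Pool.Agent.Helper93.Tet

open scoped TensorProduct
open Real

section F2

variable {m s v : ℝ} {a b c d : E}

noncomputable def yB (m s v : ℝ) : ℂ := ⟨s * (m ^ 2 - 4 * m - 8), (m + 4) * v⟩
noncomputable def yC (m s v : ℝ) : ℂ := ⟨-((m - 10) * (m + 4)), s * (m + 6) * v⟩
noncomputable def yD (m s v : ℝ) : ℂ := ⟨m - 4, s * v⟩
noncomputable def yE (m s v : ℝ) : ℂ := ⟨s * v, m + 8⟩

lemma r1_im (hs : s ^ 2 = 3) (hv : v ^ 2 = m ^ 2 - 16) :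
    (zX m s v * zU m s v * (starRingEnd ℂ) (yC m s v) * (starRingEnd ℂ) (yD m s v)).im = 0 := by
  unfold zX zU yC yD
  simp only [Complex.mul_im, Complex.mul_re, Complex.conj_re, Complex.conj_im]
  linear_combination ((-2) * m ^ 3 * s * v ^ 3 + (-8) * m ^ 3 * s * v + (-12) * m ^ 2 * s * v ^ 3 + (-16) * m ^ 2 * s * v + (8) * m * s * v ^ 3 + (128) * m * s * v + (48) * s * v ^ 3 + (256) * s * v) * hs + ((2) * m ^ 3 * s * v + (-20) * m ^ 2 * s * v + (16) * m * s * v + (128) * s * v) * hv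

lemma r2_im (hs : s ^ 2 = 3) (hv : v ^ 2 = m ^ 2 - 16) :
    (zX m s v * yB m s v * (starRingEnd ℂ) (yE m s v) * (starRingEnd ℂ) (zU m s v)).im = 0 := by
  unfold zX zU yB yE
  simp only [Complex.mul_im, Complex.mul_re, Complex.conj_re, Complex.conj_im]
  linear_combination ((-1) * m ^ 5 * s + (-4) * m ^ 4 * s + (-5) * m ^ 3 * s * v ^ 2 + (56) * m ^ 3 * s + (28) * m ^ 2 * s * v ^ 2 + (128) * m ^ 2 * s + (32) * m * s * v ^ 2 + (-640) * m * s + (-64) * s * v ^ 2 + (-1024) * s) * hs + ((1) * m ^ 3 * s * v ^ 2 + (3) * m ^ 3 * s + (4) * m ^ 2 * s * v ^ 2 + (12) * m ^ 2 * s + (-1) * m * s * v ^ 2 + (-120) * m * s + (-4) * s * v ^ 2 + (-192) * s) * hv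

lemma r3_im (hs : s ^ 2 = 3) (hv : v ^ 2 = m ^ 2 - 16) :
    (yC m s v * yD m s v * yD m s v * yE m s v * zU m s v).im = 0 := by
  unfold zU yC yD yE
  simp only [Complex.mul_im, Complex.mul_re]
  linear_combination ((-2) * m ^ 4 * s * v ^ 2 + (8) * m ^ 3 * s * v ^ 2 + (-1) * m ^ 2 * s ^ 3 * v ^ 4 + (1) * m ^ 2 * s * v ^ 4 + (-72) * m ^ 2 * s * v ^ 2 + (-2) * m * s ^ 3 * v ^ 4 + (46) * m * s * v ^ 4 + (128) * m * s * v ^ 2 + (24) * s ^ 3 * v ^ 4 + (16) * s * v ^ 4 + (640) * s * v ^ 2) * hs + ((1) * m ^ 4 * s + (-10) * m ^ 3 * s + (3) * m ^ 2 * s * v ^ 2 + (-48) * m ^ 2 * s + (138) * m * s * v ^ 2 + (608) * m * s + (48) * s * v ^ 2 + (-1280) * s) * hv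

lemma r5_im (hs : s ^ 2 = 3) (hv : v ^ 2 = m ^ 2 - 16) :
    (yD m s v * yD m s v * yD m s v * yD m s v * (starRingEnd ℂ) (yE m s v)
      * (starRingEnd ℂ) (yE m s v)).im = 0 := by
  unfold yD yE
  simp only [Complex.mul_im, Complex.mul_re, Complex.conj_re, Complex.conj_im]
  linear_combination ((20) * m ^ 3 * s * v ^ 3 + (-6) * m * s ^ 3 * v ^ 5 + (-18) * m * s * v ^ 5 + (-384) * m * s * v ^ 3 + (256) * s * v ^ 3) * hs + ((6) * m ^ 3 * s * v + (-54) * m * s * v ^ 3 + (-288) * m * s * v + (768) * s * v) * hv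

lemma c2_A (hm : 4 < m) (hs0 : 0 < s) (hs : s ^ 2 = 3) (hv0 : 0 < v) (hv : v ^ 2 = m ^ 2 - 16)
    (h1 : dist a b = 2 * m + 2) (h2 : dist a c = m + 4) (h3 : dist a d = m + 6)
    (h4 : dist b c = 3 * m - 6) (h5 : dist b d = m + 8) (h6 : dist c d = 2 * m - 2) :
    IsArg (dihedral a b c d) (s * (m + 4)) ((m + 1) * v) := by
  have e0 : 2 * m + 2 ≠ 0 := by linarith
  have e1 : m + 1 ≠ 0 := by linarith
  refine dihedral_spec (κ := 12 * s * m / (m + 1) ^ 2) h1 h2 h3 h4 h5 h6 e0 ?_ ?_ ?_ ?_ ?_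
  · have : fQ (2 * m + 2) (m + 4) (3 * m - 6) = 36 * m * (m - 2) ^ 2 / (m + 1) ^ 2 := by
      unfold fQ; field_simp; ring
    rw [this]
    have : 0 < m - 2 := by linarith
    positivity
  · have : 0 < m := by linarith
    positivity
  · have : 0 < m + 1 := by linarith
    positivity
  · have e : 12 * s * m / (m + 1) ^ 2 * (s * (m + 4)) = 12 * m / (m + 1) ^ 2 * s ^ 2 * (m + 4) := by
      ring
    rw [e, hs]
    unfold fP
    field_simp
    ring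
  · have e : (12 * s * m / (m + 1) ^ 2) ^ 2 * ((s * (m + 4)) ^ 2 + ((m + 1) * v) ^ 2)
        = (12 * m / (m + 1) ^ 2) ^ 2 * s ^ 2 * (s ^ 2 * (m + 4) ^ 2 + (m + 1) ^ 2 * v ^ 2) := by
      ring
    rw [e, hs, hv]
    unfold fQ
    field_simp
    ring

lemma c2_B (hm : 4 < m) (hs0 : 0 < s) (hs : s ^ 2 = 3) (hv0 : 0 < v) (hv : v ^ 2 = m ^ 2 - 16)
    (h1 : dist a b = m + 4) (h2 : dist a c = 2 * m + 2) (h3 : dist a d = m + 6)
    (h4 : dist b c = 3 * m - 6) (h5 : dist b d = 2 * m - 2) (h6 : dist c d = m + 8) :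
    IsArg (dihedral a b c d) (s * (m ^ 2 - 4 * m - 8)) ((m + 4) * v) := by
  have e0 : m + 4 ≠ 0 := by linarith
  refine dihedral_spec (κ := 24 * s * m / (m + 4) ^ 2) h1 h2 h3 h4 h5 h6 e0 ?_ ?_ ?_ ?_ ?_
  · have : fQ (m + 4) (2 * m + 2) (3 * m - 6) = 144 * m * (m - 2) ^ 2 / (m + 4) ^ 2 := by
      unfold fQ; field_simp; ring
    rw [this]
    have : 0 < m - 2 := by linarith
    positivity
  · have : 0 < m := by linarith
    positivity
  · have : 0 < m + 4 := by linarith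
    positivity
  · have e : 24 * s * m / (m + 4) ^ 2 * (s * (m ^ 2 - 4 * m - 8))
        = 24 * m / (m + 4) ^ 2 * s ^ 2 * (m ^ 2 - 4 * m - 8) := by
      ring
    rw [e, hs]
    unfold fP
    field_simp
    ring
  · have e : (24 * s * m / (m + 4) ^ 2) ^ 2
          * ((s * (m ^ 2 - 4 * m - 8)) ^ 2 + ((m + 4) * v) ^ 2)
        = (24 * m / (m + 4) ^ 2) ^ 2 * s ^ 2
          * (s ^ 2 * (m ^ 2 - 4 * m - 8) ^ 2 + (m + 4) ^ 2 * v ^ 2) := by
      ring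
    rw [e, hs, hv]
    unfold fQ
    field_simp
    ring

lemma c2_C (hm : 4 < m) (hs0 : 0 < s) (hs : s ^ 2 = 3) (hv0 : 0 < v) (hv : v ^ 2 = m ^ 2 - 16)
    (h1 : dist a b = m + 6) (h2 : dist a c = 2 * m + 2) (h3 : dist a d = m + 4)
    (h4 : dist b c = m + 8) (h5 : dist b d = 2 * m - 2) (h6 : dist c d = 3 * m - 6) :
    IsArg (dihedral a b c d) (-((m - 10) * (m + 4))) (s * (m + 6) * v) := by
  have e0 : m + 6 ≠ 0 := by linarith
  have hm0 : 0 < m := by linarith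
  have hm2 : 0 < m + 2 := by linarith
  have hm4 : 0 < m + 4 := by linarith
  refine dihedral_spec (κ := 24 * m / (m + 6) ^ 2) h1 h2 h3 h4 h5 h6 e0 ?_ ?_ ?_ ?_ ?_
  · have : fQ (m + 6) (2 * m + 2) (m + 8) = 48 * m * (m + 2) * (m + 4) / (m + 6) ^ 2 := by
      unfold fQ; field_simp; ring
    rw [this]
    positivity
  · positivity
  · have : 0 < m + 6 := by linarith
    positivity
  · unfold fP
    field_simp
    ring
  · have e : (24 * m / (m + 6) ^ 2) ^ 2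
          * ((-((m - 10) * (m + 4))) ^ 2 + (s * (m + 6) * v) ^ 2)
        = (24 * m / (m + 6) ^ 2) ^ 2
          * (((m - 10) * (m + 4)) ^ 2 + s ^ 2 * (m + 6) ^ 2 * v ^ 2) := by
      ring
    rw [e, hs, hv]
    unfold fQ
    field_simp
    ring

lemma c2_D (hm : 4 < m) (hs0 : 0 < s) (hs : s ^ 2 = 3) (hv0 : 0 < v) (hv : v ^ 2 = m ^ 2 - 16)
    (h1 : dist a b = 3 * m - 6) (h2 : dist a c = 2 * m + 2) (h3 : dist a d = m + 8)
    (h4 : dist b c = m + 4) (h5 : dist b d = 2 * m - 2) (h6 : dist c d = m + 6) :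
    IsArg (dihedral a b c d) (m - 4) (s * v) := by
  have hm0 : 0 < m := by linarith
  have hm2 : 0 < m - 2 := by linarith
  have e0 : 3 * m - 6 ≠ 0 := by linarith
  have e1 : m - 2 ≠ 0 := by linarith
  have e3 : 3 * m - 6 = 3 * (m - 2) := by ring
  refine dihedral_spec (κ := 8 * m / (m - 2)) h1 h2 h3 h4 h5 h6 e0 ?_ ?_ ?_ ?_ ?_
  · have : fQ (3 * m - 6) (2 * m + 2) (m + 4) = 16 * m := by
      unfold fQ; rw [e3]; field_simp; ring
    rw [this]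
    positivity
  · positivity
  · positivity
  · unfold fP
    rw [e3]
    field_simp
    ring
  · have e : (8 * m / (m - 2)) ^ 2
          * ((m - 4) ^ 2 + (s * v) ^ 2)
        = (8 * m / (m - 2)) ^ 2
          * ((m - 4) ^ 2 + s ^ 2 * v ^ 2) := by
      ring
    rw [e, hs, hv]
    unfold fQ
    rw [e3]
    field_simp
    ring

lemma c2_E (hm : 4 < m) (hs0 : 0 < s) (hs : s ^ 2 = 3) (hv0 : 0 < v) (hv : v ^ 2 = m ^ 2 - 16)
    (h1 : dist a b = m + 8) (h2 : dist a c = 2 * m + 2) (h3 : dist a d = 3 * m - 6)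
    (h4 : dist b c = m + 6) (h5 : dist b d = 2 * m - 2) (h6 : dist c d = m + 4) :
    IsArg (dihedral a b c d) (s * v) (m + 8) := by
  have hm0 : 0 < m := by linarith
  have hm2 : 0 < m + 2 := by linarith
  have hm4 : 0 < m + 4 := by linarith
  have hm8 : 0 < m + 8 := by linarith
  have e0 : m + 8 ≠ 0 := by linarith
  refine dihedral_spec (κ := 24 * s * m * v / (m + 8) ^ 2) h1 h2 h3 h4 h5 h6 e0 ?_ ?_ ?_ ?_ ?_
  · have : fQ (m + 8) (2 * m + 2) (m + 6) = 48 * m * (m + 2) * (m + 4) / (m + 8) ^ 2 := by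
      unfold fQ; field_simp; ring
    rw [this]
    positivity
  · positivity
  · positivity
  · have e : 24 * s * m * v / (m + 8) ^ 2 * (s * v)
        = 24 * m / (m + 8) ^ 2 * s ^ 2 * v ^ 2 := by
      ring
    rw [e, hs, hv]
    unfold fP
    field_simp
    ring
  · have e : (24 * s * m * v / (m + 8) ^ 2) ^ 2
          * ((s * v) ^ 2 + (m + 8) ^ 2)
        = (24 * m / (m + 8) ^ 2) ^ 2 * s ^ 2 * v ^ 2
          * (s ^ 2 * v ^ 2 + (m + 8) ^ 2) := by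
      ring
    rw [e, hs, hv]
    unfold fQ
    field_simp
    ring

lemma c2_F (hm : 4 < m) (hs0 : 0 < s) (hs : s ^ 2 = 3) (hv0 : 0 < v) (hv : v ^ 2 = m ^ 2 - 16)
    (h1 : dist a b = 2 * m - 2) (h2 : dist a c = m + 4) (h3 : dist a d = 3 * m - 6)
    (h4 : dist b c = m + 6) (h5 : dist b d = m + 8) (h6 : dist c d = 2 * m + 2) :
    IsArg (dihedral a b c d) (s * (m - 4)) ((m - 1) * v) := by
  have hm0 : 0 < m := by linarith
  have hm1 : 0 < m - 1 := by linarith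
  have hm2 : 0 < m + 2 := by linarith
  have hm3 : 0 < m - 2 := by linarith
  have e0 : 2 * m - 2 ≠ 0 := by linarith
  have e1 : m - 1 ≠ 0 := by linarith
  have e3 : 2 * m - 2 = 2 * (m - 1) := by ring
  refine dihedral_spec (κ := 12 * s * m / (m - 1) ^ 2) h1 h2 h3 h4 h5 h6 e0 ?_ ?_ ?_ ?_ ?_
  · have : fQ (2 * m - 2) (m + 4) (m + 6) = 12 * m * (m + 2) * (m - 2) / (m - 1) ^ 2 := by
      unfold fQ; rw [e3]; field_simp; ring
    rw [this]
    positivity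
  · positivity
  · positivity
  · have e : 12 * s * m / (m - 1) ^ 2 * (s * (m - 4)) = 12 * m / (m - 1) ^ 2 * s ^ 2 * (m - 4) := by
      ring
    rw [e, hs]
    unfold fP
    rw [e3]
    field_simp
    ring
  · have e : (12 * s * m / (m - 1) ^ 2) ^ 2 * ((s * (m - 4)) ^ 2 + ((m - 1) * v) ^ 2)
        = (12 * m / (m - 1) ^ 2) ^ 2 * s ^ 2 * (s ^ 2 * (m - 4) ^ 2 + (m - 1) ^ 2 * v ^ 2) := by
      ring
    rw [e, hs, hv]
    unfold fQ
    rw [e3]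
    field_simp
    ring

/-- The angles of the second family. -/
theorem F2_angles (hm : 4 < m) (hs0 : 0 < s) (hs : s ^ 2 = 3) (hv0 : 0 < v)
    (hv : v ^ 2 = m ^ 2 - 16)
    (h : HasEdges a b c d (2 * m + 2) (m + 4) (m + 6) (3 * m - 6) (m + 8) (2 * m - 2)) :
    IsArg (dihedral a b c d) (s * (m + 4)) ((m + 1) * v)
    ∧ IsArg (dihedral a c b d) (s * (m ^ 2 - 4 * m - 8)) ((m + 4) * v)
    ∧ IsArg (dihedral a d b c) (-((m - 10) * (m + 4))) (s * (m + 6) * v)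
    ∧ IsArg (dihedral b c a d) (m - 4) (s * v)
    ∧ IsArg (dihedral b d a c) (s * v) (m + 8)
    ∧ IsArg (dihedral c d a b) (s * (m - 4)) ((m - 1) * v) := by
  obtain ⟨h1, h2, h3, h4, h5, h6⟩ := h
  have g1 := h1; have g2 := h2; have g3 := h3; have g4 := h4; have g5 := h5; have g6 := h6
  rw [dist_comm] at g1 g2 g3 g4 g5 g6
  exact ⟨c2_A hm hs0 hs hv0 hv h1 h2 h3 h4 h5 h6,
    c2_B hm hs0 hs hv0 hv h2 h1 h3 g4 h6 h5,
    c2_C hm hs0 hs hv0 hv h3 h1 h2 g5 g6 h4,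
    c2_D hm hs0 hs hv0 hv h4 g1 h5 g2 h6 h3,
    c2_E hm hs0 hs hv0 hv h5 g1 h4 g3 g6 h2,
    c2_F hm hs0 hs hv0 hv h6 g2 g4 g3 g5 h1⟩

/-- The Dehn invariant of the second family vanishes. -/
theorem F2_dehn (hm : 4 < m)
    (h : HasEdges a b c d (2 * m + 2) (m + 4) (m + 6) (3 * m - 6) (m + 8) (2 * m - 2)) :
    dehn a b c d = 0 := by
  have hs0 : (0 : ℝ) < Real.sqrt 3 := Real.sqrt_pos.mpr (by norm_num)
  have hs : (Real.sqrt 3) ^ 2 = 3 := Real.sq_sqrt (by norm_num)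
  have hpos : 0 < m ^ 2 - 16 := by nlinarith
  have hv0 : 0 < Real.sqrt (m ^ 2 - 16) := Real.sqrt_pos.mpr hpos
  have hv : (Real.sqrt (m ^ 2 - 16)) ^ 2 = m ^ 2 - 16 := Real.sq_sqrt hpos.le
  obtain ⟨A, B, C, D, E, F⟩ := F2_angles hm hs0 hs hv0 hv h
  set s := Real.sqrt 3
  set v := Real.sqrt (m ^ 2 - 16)
  have dA := Dir.of A
  have dB := Dir.of B
  have dC := Dir.of C
  have dD := Dir.of D
  have dE := Dir.of E
  have dF := Dir.of F
  have R1 := (((dA.add dF).add dC.neg).add dD.neg).zero_of_im (r1_im hs hv)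
  have R2 := (((dA.add dB).add dE.neg).add dF.neg).zero_of_im (r2_im hs hv)
  have R3 := ((((dC.add dD).add dD).add dE).add dF).zero_of_im (r3_im hs hv)
  have R5 := (((((dD.add dD).add dD).add dD).add dE.neg).add dE.neg).zero_of_im (r5_im hs hv)
  obtain ⟨h1, h2, h3, h4, h5, h6⟩ := h
  unfold dehn
  rw [h1, h2, h3, h4, h5, h6]
  generalize dihedral a b c d = θ1 at *
  generalize dihedral a c b d = θ2 at *
  generalize dihedral a d b c = θ3 at *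
  generalize dihedral b c a d = θ4 at *
  generalize dihedral b d a c = θ5 at *
  generalize dihedral c d a b = θ6 at *
  have t1 := tmul_split m 2 2 (θ1 : AngleModPi)
  have t2 := tmul_split m 1 4 (θ2 : AngleModPi)
  have t3 := tmul_split m 1 6 (θ3 : AngleModPi)
  have t4 := tmul_split m 3 (-6) (θ4 : AngleModPi)
  have t5 := tmul_split m 1 8 (θ5 : AngleModPi)
  have t6 := tmul_split m 2 (-2) (θ6 : AngleModPi)
  have q1 : 2 * m + 2 = ((2 : ℤ) : ℝ) * m + ((2 : ℤ) : ℝ) := by push_cast; ring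
  have q2 : m + 4 = ((1 : ℤ) : ℝ) * m + ((4 : ℤ) : ℝ) := by push_cast; ring
  have q3 : m + 6 = ((1 : ℤ) : ℝ) * m + ((6 : ℤ) : ℝ) := by push_cast; ring
  have q4 : 3 * m - 6 = ((3 : ℤ) : ℝ) * m + ((-6 : ℤ) : ℝ) := by push_cast; ring
  have q5 : m + 8 = ((1 : ℤ) : ℝ) * m + ((8 : ℤ) : ℝ) := by push_cast; ring
  have q6 : 2 * m - 2 = ((2 : ℤ) : ℝ) * m + ((-2 : ℤ) : ℝ) := by push_cast; ring
  rw [q1, q2, q3, q4, q5, q6, t1, t2, t3, t4, t5, t6]
  simp only [QuotientAddGroup.mk_add, QuotientAddGroup.mk_neg] at R1 R2 R3 R5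
  generalize (θ1 : AngleModPi) = A1 at *
  generalize (θ2 : AngleModPi) = A2 at *
  generalize (θ3 : AngleModPi) = A3 at *
  generalize (θ4 : AngleModPi) = A4 at *
  generalize (θ5 : AngleModPi) = A5 at *
  generalize (θ6 : AngleModPi) = A6 at *
  have ha : (2 : ℤ) • A1 + (1 : ℤ) • A2 + (1 : ℤ) • A3 + (3 : ℤ) • A4 + (1 : ℤ) • A5
      + (2 : ℤ) • A6 = 0 := by
    have : (2 : ℤ) • A1 + (1 : ℤ) • A2 + (1 : ℤ) • A3 + (3 : ℤ) • A4 + (1 : ℤ) • A5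
      + (2 : ℤ) • A6 = (2 : ℤ) • (A3 + A4 + A4 + A5 + A6) + (A1 + A6 + -A3 + -A4)
        + (A1 + A2 + -A5 + -A6) := by abel
    rw [this, R1, R2, R3]
    simp
  have hb : (2 : ℤ) • A1 + (4 : ℤ) • A2 + (6 : ℤ) • A3 + (-6 : ℤ) • A4 + (8 : ℤ) • A5
      + (-2 : ℤ) • A6 = 0 := by
    have : (2 : ℤ) • A1 + (4 : ℤ) • A2 + (6 : ℤ) • A3 + (-6 : ℤ) • A4 + (8 : ℤ) • A5
      + (-2 : ℤ) • A6 = (-2 : ℤ) • (A1 + A6 + -A3 + -A4) + (4 : ℤ) • (A1 + A2 + -A5 + -A6)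
        + (4 : ℤ) • (A3 + A4 + A4 + A5 + A6) - (4 : ℤ) • (A4 + A4 + A4 + A4 + -A5 + -A5) := by abel
    rw [this, R1, R2, R3, R5]
    simp
  have e : m ⊗ₜ[ℤ] ((2 : ℤ) • A1 + (1 : ℤ) • A2 + (1 : ℤ) • A3 + (3 : ℤ) • A4 + (1 : ℤ) • A5
      + (2 : ℤ) • A6) + (1 : ℝ) ⊗ₜ[ℤ] ((2 : ℤ) • A1 + (4 : ℤ) • A2 + (6 : ℤ) • A3
      + (-6 : ℤ) • A4 + (8 : ℤ) • A5 + (-2 : ℤ) • A6) = 0 := by
    rw [ha, hb, TensorProduct.tmul_zero, TensorProduct.tmul_zero, add_zero]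
  rw [← e]
  simp only [TensorProduct.tmul_add]
  abel

end F2

end Pool.Agent.Helper93.Tet
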