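import Pool.Agent.Helper93.Tet.Exist

namespace Pool.Agent.Helper93.Tet

open Real

lemma arg_eq_arctan {θ p q : ℝ} (h0 : 0 ≤ θ) (hpi : θ ≤ π) (hp : 0 < p) (h : IsArg θ p q) :
    θ = Real.arctan (q / p) := by
  obtain ⟨hc, hs⟩ := h
  have hr : 0 < Real.sqrt (p ^ 2 + q ^ 2) := Real.sqrt_pos.mpr (by positivity)
  have hcos : 0 < Real.cos θ := by rw [hc]; positivity
  have htan : Real.tan θ = q / p := by
    rw [Real.tan_eq_sin_div_cos, hc, hs]
    field_simp
  rw [← htan, Real.arctan_tan]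
  · linarith [Real.pi_pos]
  · by_contra hcon
    push Not at hcon
    have := Real.cos_nonpos_of_pi_div_two_le_of_le hcon (by linarith [Real.pi_pos])
    linarith

noncomputable def fx (m : ℝ) : ℝ :=
  Real.arctan (((m + 1) * Real.sqrt (m ^ 2 - 16)) / (Real.sqrt 3 * (m + 4)))

noncomputable def fu (m : ℝ) : ℝ :=
  Real.arctan (((m - 1) * Real.sqrt (m ^ 2 - 16)) / (Real.sqrt 3 * (m - 4)))

lemma hasDeriv_v {m : ℝ} (hm : 4 < m) :
    HasDerivAt (fun m : ℝ => Real.sqrt (m ^ 2 - 16)) (m / Real.sqrt (m ^ 2 - 16)) m := by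
  have hpos : 0 < m ^ 2 - 16 := by nlinarith
  have h1 : HasDerivAt (fun m : ℝ => m ^ 2 - 16) (2 * m) m := by
    simpa using (hasDerivAt_pow 2 m).sub_const 16
  have h2 := h1.sqrt hpos.ne'
  convert h2 using 1
  field_simp

lemma hasDeriv_fx {m : ℝ} (hm : 4 < m) :
    HasDerivAt fx (Real.sqrt 3 * (m + 6) / (Real.sqrt (m ^ 2 - 16) * (m ^ 2 - 4))) m := by
  have hs0 : (0 : ℝ) < Real.sqrt 3 := Real.sqrt_pos.mpr (by norm_num)
  have hs : (Real.sqrt 3) ^ 2 = 3 := Real.sq_sqrt (by norm_num)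
  have hpos : 0 < m ^ 2 - 16 := by nlinarith
  have hv0 : 0 < Real.sqrt (m ^ 2 - 16) := Real.sqrt_pos.mpr hpos
  have hv : (Real.sqrt (m ^ 2 - 16)) ^ 2 = m ^ 2 - 16 := Real.sq_sqrt hpos.le
  have p1 : 0 < m - 4 := by linarith
  have p2 : 0 < m - 2 := by linarith
  have p3 : 0 < m + 4 := by linarith
  have p4 : 0 < m + 1 := by linarith
  have p6 : 0 < m + 2 := by linarith
  have p5 : 0 < m := by linarith
  have hn : HasDerivAt (fun m : ℝ => (m + 1) * Real.sqrt (m ^ 2 - 16))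
      (1 * Real.sqrt (m ^ 2 - 16) + (m + 1) * (m / Real.sqrt (m ^ 2 - 16))) m :=
    ((hasDerivAt_id m).add_const 1).mul (hasDeriv_v hm)
  have hd : HasDerivAt (fun m : ℝ => Real.sqrt 3 * (m + 4)) (Real.sqrt 3 * 1) m :=
    ((hasDerivAt_id m).add_const 4).const_mul _
  have hq := hn.div hd (by positivity)
  have ha := hq.arctan
  refine HasDerivAt.congr_deriv (f := fx) ha ?_
  set s := Real.sqrt 3
  set v := Real.sqrt (m ^ 2 - 16)
  have e1 : 1 + ((m + 1) * v / (s * (m + 4))) ^ 2 = (m - 2) ^ 2 * (m + 2) / (3 * (m + 4)) := by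
    rw [div_pow, mul_pow, mul_pow, hv, hs]
    field_simp
    ring
  have e2 : (1 * v + (m + 1) * (m / v)) * (s * (m + 4)) - (m + 1) * v * (s * 1)
      = s * (m + 4) * ((m + 6) * (m - 2)) / v := by
    have : (1 * v + (m + 1) * (m / v)) * (s * (m + 4)) - (m + 1) * v * (s * 1)
      = s * ((v ^ 2 + (m + 1) * m) * (m + 4) - (m + 1) * v ^ 2) / v := by
      field_simp
    rw [this, hv]
    congr 1
    ring
  have e3 : (s * (m + 4)) ^ 2 = 3 * (m + 4) ^ 2 := by rw [mul_pow, hs]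
  simp only [Pi.div_apply]
  rw [e1, e2, e3]
  have hm4 : m ^ 2 - 4 = (m - 2) * (m + 2) := by ring
  rw [hm4]
  field_simp

lemma hasDeriv_fu {m : ℝ} (hm : 4 < m) :
    HasDerivAt fu (Real.sqrt 3 * (m - 6) / (Real.sqrt (m ^ 2 - 16) * (m ^ 2 - 4))) m := by
  have hs0 : (0 : ℝ) < Real.sqrt 3 := Real.sqrt_pos.mpr (by norm_num)
  have hs : (Real.sqrt 3) ^ 2 = 3 := Real.sq_sqrt (by norm_num)
  have hpos : 0 < m ^ 2 - 16 := by nlinarith
  have hv0 : 0 < Real.sqrt (m ^ 2 - 16) := Real.sqrt_pos.mpr hpos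
  have hv : (Real.sqrt (m ^ 2 - 16)) ^ 2 = m ^ 2 - 16 := Real.sq_sqrt hpos.le
  have p1 : 0 < m - 4 := by linarith
  have p2 : 0 < m - 2 := by linarith
  have p3 : 0 < m + 4 := by linarith
  have p4 : 0 < m - 1 := by linarith
  have p6 : 0 < m + 2 := by linarith
  have p5 : 0 < m := by linarith
  have hn : HasDerivAt (fun m : ℝ => (m - 1) * Real.sqrt (m ^ 2 - 16))
      (1 * Real.sqrt (m ^ 2 - 16) + (m - 1) * (m / Real.sqrt (m ^ 2 - 16))) m :=
    ((hasDerivAt_id m).sub_const 1).mul (hasDeriv_v hm)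
  have hd : HasDerivAt (fun m : ℝ => Real.sqrt 3 * (m - 4)) (Real.sqrt 3 * 1) m :=
    ((hasDerivAt_id m).sub_const 4).const_mul _
  have hq := hn.div hd (by positivity)
  have ha := hq.arctan
  refine HasDerivAt.congr_deriv (f := fu) ha ?_
  set s := Real.sqrt 3
  set v := Real.sqrt (m ^ 2 - 16)
  have e1 : 1 + ((m - 1) * v / (s * (m - 4))) ^ 2 = (m + 2) ^ 2 * (m - 2) / (3 * (m - 4)) := by
    rw [div_pow, mul_pow, mul_pow, hv, hs]
    field_simp
    ring
  have e2 : (1 * v + (m - 1) * (m / v)) * (s * (m - 4)) - (m - 1) * v * (s * 1)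
      = s * (m - 4) * ((m - 6) * (m + 2)) / v := by
    have : (1 * v + (m - 1) * (m / v)) * (s * (m - 4)) - (m - 1) * v * (s * 1)
      = s * ((v ^ 2 + (m - 1) * m) * (m - 4) - (m - 1) * v ^ 2) / v := by
      field_simp
    rw [this, hv]
    congr 1
    ring
  have e3 : (s * (m - 4)) ^ 2 = 3 * (m - 4) ^ 2 := by rw [mul_pow, hs]
  simp only [Pi.div_apply]
  rw [e1, e2, e3]
  have hm4 : m ^ 2 - 4 = (m - 2) * (m + 2) := by ring
  rw [hm4]
  field_simp

/-- A linear relation between the two angles and `π` has at most two solutions. -/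
lemma rel_finite (i j k : ℝ) (h : ¬ (i = 0 ∧ j = 0 ∧ k = 0)) :
    {m : ℝ | 4 < m ∧ i * π + j * fx m + k * fu m = 0}.Finite := by
  by_cases hjk : j = 0 ∧ k = 0
  · have hi : i ≠ 0 := fun hi => h ⟨hi, hjk.1, hjk.2⟩
    have : {m : ℝ | 4 < m ∧ i * π + j * fx m + k * fu m = 0} = ∅ := by
      ext m
      simp [hjk.1, hjk.2, hi, Real.pi_ne_zero]
    rw [this]
    exact Set.finite_empty
  -- between two zeros there is a root of the linear polynomial
  have rolle : ∀ a b : ℝ, 4 < a → a < b → i * π + j * fx a + k * fu a = 0 →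
      i * π + j * fx b + k * fu b = 0 → ∃ c, a < c ∧ c < b ∧ j * (c + 6) + k * (c - 6) = 0 := by
    intro a b ha hab h1 h2
    have hd : ∀ x : ℝ, 4 < x → HasDerivAt (fun m => i * π + j * fx m + k * fu m)
        (0 + j * (Real.sqrt 3 * (x + 6) / (Real.sqrt (x ^ 2 - 16) * (x ^ 2 - 4)))
          + k * (Real.sqrt 3 * (x - 6) / (Real.sqrt (x ^ 2 - 16) * (x ^ 2 - 4)))) x := by
      intro x hx
      exact ((hasDerivAt_const x _).add ((hasDeriv_fx hx).const_mul j)).add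
        ((hasDeriv_fu hx).const_mul k)
    obtain ⟨c, hc, hc0⟩ := exists_hasDerivAt_eq_zero hab
      (f := fun m => i * π + j * fx m + k * fu m)
      (fun x hx => (hd x (lt_of_lt_of_le ha hx.1)).continuousAt.continuousWithinAt)
      (by simp only [h1, h2]) (fun x hx => hd x (lt_trans ha hx.1))
    refine ⟨c, hc.1, hc.2, ?_⟩
    have hc4 : 4 < c := lt_trans ha hc.1
    have hs0 : (0 : ℝ) < Real.sqrt 3 := Real.sqrt_pos.mpr (by norm_num)
    have hpos : 0 < c ^ 2 - 16 := by nlinarith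
    have hv0 : 0 < Real.sqrt (c ^ 2 - 16) := Real.sqrt_pos.mpr hpos
    have hpos2 : 0 < c ^ 2 - 4 := by nlinarith
    have e : 0 + j * (Real.sqrt 3 * (c + 6) / (Real.sqrt (c ^ 2 - 16) * (c ^ 2 - 4)))
          + k * (Real.sqrt 3 * (c - 6) / (Real.sqrt (c ^ 2 - 16) * (c ^ 2 - 4)))
        = Real.sqrt 3 / (Real.sqrt (c ^ 2 - 16) * (c ^ 2 - 4))
          * (j * (c + 6) + k * (c - 6)) := by ring
    rw [e] at hc0
    rcases mul_eq_zero.mp hc0 with h' | h'
    · exact absurd h' (by positivity)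
    · exact h'
  have three : ∀ a b c : ℝ, 4 < a → a < b → b < c → i * π + j * fx a + k * fu a = 0 →
      i * π + j * fx b + k * fu b = 0 → i * π + j * fx c + k * fu c = 0 → False := by
    intro a b c ha hab hbc h1 h2 h3
    obtain ⟨r, hr1, hr2, hr⟩ := rolle a b ha hab h1 h2
    obtain ⟨t, ht1, ht2, ht⟩ := rolle b c (by linarith) hbc h2 h3
    have e1 : (j + k) * (t - r) = 0 := by linarith
    have e2 : t - r ≠ 0 := by
      have : r < t := by linarith
      linarith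
    have e3 : j + k = 0 := (mul_eq_zero.mp e1).resolve_right e2
    have e4 : k = -j := by linarith
    rw [e4] at hr
    have e5 : j = 0 := by linarith
    exact hjk ⟨e5, by rw [e4, e5]; simp⟩
  by_contra hinf
  have hinf' : {m : ℝ | 4 < m ∧ i * π + j * fx m + k * fu m = 0}.Infinite := hinf
  obtain ⟨t, ht, htc⟩ := hinf'.exists_subset_card_eq 3
  let e := t.orderEmbOfFin htc
  have m0 := ht (Finset.mem_coe.mpr (t.orderEmbOfFin_mem htc 0))
  have m1 := ht (Finset.mem_coe.mpr (t.orderEmbOfFin_mem htc 1))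
  have m2 := ht (Finset.mem_coe.mpr (t.orderEmbOfFin_mem htc 2))
  have l1 : e 0 < e 1 := e.strictMono (by decide)
  have l2 : e 1 < e 2 := e.strictMono (by decide)
  exact three _ _ _ m0.1 l1 l2 m0.2 m1.2 m2.2

/-- The exceptional parameters. -/
def excep : Set ℝ := ⋃ q : {q : Fin 3 → ℚ // q ≠ 0},
  {m : ℝ | 4 < m ∧ (q.1 0 : ℝ) * π + (q.1 1 : ℝ) * fx m + (q.1 2 : ℝ) * fu m = 0}

lemma excep_countable : excep.Countable := by
  unfold excep
  apply Set.countable_iUnion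
  intro q
  apply Set.Finite.countable
  apply rel_finite
  rintro ⟨h0, h1, h2⟩
  apply q.2
  funext i
  fin_cases i
  · exact_mod_cast h0
  · exact_mod_cast h1
  · exact_mod_cast h2

lemma linInd {m : ℝ} (hm : 4 < m) (hS : m ∉ excep) :
    LinearIndependent ℚ ![π, fx m, fu m] := by
  rw [Fintype.linearIndependent_iff]
  intro g hg
  by_contra hcon
  apply hS
  have hne : g ≠ 0 := by
    rintro rfl
    exact hcon (fun i => rfl)
  refine Set.mem_iUnion.mpr ⟨⟨g, hne⟩, hm, ?_⟩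
  rw [Fin.sum_univ_three] at hg
  simp only [Matrix.cons_val_zero, Matrix.cons_val_one, Matrix.cons_val, Rat.smul_def] at hg
  exact hg

end Pool.Agent.Helper93.Tet
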